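import Pool.Agent.TH376.TC.Frob

/-!
# Semisimplicity of Frobenius and singular cubic hypersurfaces

For polynomials `g_0, …, g_r` in `n` variables over `k` let `V ⊆ 𝔸^n` be the closed subscheme
`g_0 = ⋯ = g_r = 0` and let `E_g` be the hypersurface `g_0 t_0 + ⋯ + g_r t_r = 0` in
`𝔸^(n+r+1)`. The homology of `V × 𝔸^(r+1)` is contained in that of `E_g`: the boundary map from the
homology of the complement `U` factors over the push-forward from `U` to `(𝔸^n ∖ V) × 𝔸^(r+1)`,
and this push-forward is zero. So up to a Tate twist the cohomology of every smooth projective
variety is, as a representation, a submodule of the homology of such a cubic hypersurface.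
-/

set_option autoImplicit false

open CategoryTheory CategoryTheory.Limits AlgebraicGeometry Pool.Agent.TH90.Cub
  Pool.Agent.TH376.TC

namespace Pool.Agent.Results.MP_93fb11_ag.CubicHypersurfaces

/-- **Semisimplicity of Frobenius and singular cubic hypersurfaces.** Let `S` be a set which
contains `1` and generates the finite field `k`. The following are equivalent (`Reduces`):

(1) Frobenius acts semisimply on the homology of all smooth projective varieties over `k`;

(2) the same for all varieties over `k`;

(3) the same for the cubic hypersurfaces `g_0 t_0 + ⋯ + g_r t_r = 0` in affine space, each `g_i`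
being one of `x_a x_b - x_c`, `x_a + x_b - x_c`, `x_a - c` with `c` in `S`.

Moreover for each smooth projective variety `X` there is such a hypersurface `E` such that each
homology group of `X` is isomorphic to a Frobenius submodule of a homology group of `E`. -/
theorem result {k K : Type} [Field k] [Finite k] [Field K] [CharZero K] (T : FrobTheory k K)
    (hH : HProps T.toHMaps) (hF : T.Known) (S : Set k) (hS : Subfield.closure S = ⊤)
    (h1 : (1 : k) ∈ S) :
    Reduces S T.Semisimple ∧
    ∀ X : Sch k, SmProj X → ∃ (n r : ℕ) (g : Fin (r + 1) → MvPolynomial (Fin n) k),
      (∀ i, IsGate S (g i)) ∧ T.Embeds X (aff k (Cone g)) :=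
  ⟨FrobTheory.semisimple_reduces hH hF hS h1,
    fun X hX => FrobTheory.exists_embedding hH hF hS h1 X hX⟩

end Pool.Agent.Results.MP_93fb11_ag.CubicHypersurfaces
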