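import Pool.Agent.TH117.HS.Smooth

/-!
# Semisimplicity of Frobenius on smooth cyclic coverings of projective space

Let `p` be a prime, `κ` a finite field with `q` elements that contains a primitive root of unity `z`
of order `p ^ s`, `F` a form in `n + 1` variables over `κ` whose degree is divisible by `p ^ s`, with
smooth zero locus `Z` in the projective space of dimension `n`, and `𝒳 : y ^ (p ^ s) = F` the cyclic
covering of projective space branched along `Z`, a smooth projective variety of dimension `n`. Let
`E` be an algebraic closure of the field of `ℓ`-adic numbers (`ℓ` prime to `q`; `ℓ = p` is allowed).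

Let `P = ∏_{x ∈ B} (1 - x T)` be the characteristic polynomial of Frobenius on the primitive
cohomology of `Z` in degree `n - 1`; it has integral coefficients, and the number of points of `Z`
over an extension `L` of `κ` is `∑_{i < n} |L| ^ i - (-1) ^ n ∑_{x ∈ B} x ^ [L : κ]`.

Let `V = H^n(𝒳, E)` with the Frobenius `Φ` and the automorphism `g` of order `p ^ s` given by the
covering group. The cohomology groups of degree different from `n` are those of projective space. So
the number of fixed points of the composition of Frobenius over `L` and the `i`-th power of the
automorphism is given by the Grothendieck-Lefschetz formula `hfix`; these fixed points are the points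
of `Z` over `L` and the `p ^ s` points over each point `v` of projective space over `L` with
`F(v) ^ ((|L| - 1) / p ^ s) = z ^ i` (`projFix`). The part of `V` that is fixed by `g` is the
cohomology of projective space. For each root of unity `ω ≠ 1` with `ω ^ (p ^ s) = 1` the dimension
of the eigenspace of `g` for `ω` is `deg P + 1` (if `n` is even), `deg P - 1` (if `n` is odd).

Theorem: if the polynomial `H` over the field with `p` elements with `H = (1 - T) P mod p` (if `n` is
even), `(1 - T) H = P mod p` (if `n` is odd) is squarefree, then `Φ` is semisimple on the
cohomology of `𝒳` of degree `n`. (The other cohomology groups have dimension at most one.)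

So the semisimplicity of Frobenius on `𝒳` follows from a condition on the number of points of the
branch hypersurface modulo `p`; there is no condition on the Hodge numbers of `𝒳`.
-/

namespace Pool.Agent.Results.MP_93fb11_ag.CyclicHypersurfaces

open Finset Polynomial Pool.Agent.W528.HS Pool.Agent.TH117.HS

theorem result (p s : ℕ) (hp : p.Prime) (hs : 1 ≤ s) (κ : Type) [Field κ] [Fintype κ] (z : κ)
    (hz : IsPrimitiveRoot z (p ^ s)) (n : ℕ)
    (F : MvPolynomial (Fin (n + 1)) κ) (E : Type) [Field E] [CharZero E] [IsAlgClosed E]
    -- the zeta function of the branch hypersurface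
    (P : ℤ[X]) (hP : P.coeff 0 = 1) (B : Multiset E)
    (hB : P.map (Int.castRingHom E) = (B.map fun x => 1 - C x * X).prod)
    (hZ : ∀ (L : Type) [Field L] [Fintype L] [Algebra κ L],
      (projZero L (F.map (algebraMap κ L)) : E)
        = (∑ i ∈ range n, (Fintype.card L : E) ^ i)
          - (-1) ^ n * (B.map fun x => x ^ Module.finrank κ L).sum)
    -- the cohomology of the covering
    (V : Type) [AddCommGroup V] [Module E V] [FiniteDimensional E V] (Φ g : Module.End E V)
    (hc : Commute Φ g) (hg : g ^ p ^ s = 1)
    (hinv : ∀ v, g v = v → Φ v = (Fintype.card κ : E) ^ (n / 2) • v)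
    (hfix : ∀ (L : Type) [Field L] [Fintype L] [Algebra κ L] (i : ℕ),
      (∑ k ∈ range (n + 1), if 2 * k = n then 0 else (Fintype.card L : E) ^ k) +
          (-1) ^ n * LinearMap.trace E V (Φ ^ Module.finrank κ L * g ^ i) =
        (projZero L (F.map (algebraMap κ L)) : E) +
          (p : E) ^ s * projFix L (p ^ s) (F.map (algebraMap κ L)) (algebraMap κ L z) i)
    -- the condition modulo `p`
    (H : (ZMod p)[X]) (hH : Squarefree H)
    (hdim : ∀ ω : E, ω ≠ 1 → ω ^ p ^ s = 1 → H.natDegree = Module.finrank E (g.eigenspace ω))
    (hev : Even n → H = (1 - X) * P.map (Int.castRingHom (ZMod p)))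
    (hodd : Odd n → (1 - X) * H = P.map (Int.castRingHom (ZMod p))) :
    Φ.IsSemisimple :=
  whole_smooth hp hs κ hz F P hP B hB hZ Φ g hc hg hinv hfix H hH hdim hev hodd

end Pool.Agent.Results.MP_93fb11_ag.CyclicHypersurfaces
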