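import Pool.Agent.TH943.SP.Main

/-!
Semisimplicity of Frobenius on the cohomology of the smooth projective surfaces
`v ^ (p ^ s) = D(t) ^ a (x - h(t)) ^ b f(x) ^ c`.
-/

set_option autoImplicit false
set_option maxHeartbeats 1000000

open Polynomial

namespace Pool.Agent.Results.MP_93fb11_ag.CyclicPencilSurfaces

section defs

variable {κ : Type} [Field κ]

/-- The value of the function `D(t) ^ a (x - h(t)) ^ b f(x) ^ c` at the point `(t, x) = (y 0, y 1)`
of the affine plane over `L`. -/
noncomputable def value (L : Type) [Field L] [Algebra κ L] (f h D : κ[X]) (a b c : ℕ)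
    (y : Fin 2 → L) : L :=
  (aeval (y 0) D) ^ a * (y 1 - aeval (y 0) h) ^ b * (aeval (y 1) f) ^ c

/-- The number of points over `L` of the open set `U` of the plane where the function is not
zero. -/
noncomputable def openCount (L : Type) [Field L] [Algebra κ L] (f h D : κ[X]) (a b c : ℕ) : ℕ :=
  Set.ncard {y : Fin 2 → L | value L f h D a b c y ≠ 0}

/-- The number of points over `L` of `U` where the power of the function with exponent
`(|L| - 1) / N` is `z ^ i`. -/
noncomputable def fixCount (L : Type) [Field L] [Fintype L] [Algebra κ L] (f h D : κ[X])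
    (a b c N : ℕ) (z : κ) (i : ℕ) : ℕ :=
  Set.ncard {y : Fin 2 → L | value L f h D a b c y ≠ 0 ∧
    (value L f h D a b c y) ^ ((Fintype.card L - 1) / N) = algebraMap κ L z ^ i}

/-- The polynomials `f` and `f(h(t))` are irreducible, of degrees at least two and not divisible by
`p`; `D` is a nonzero constant, or irreducible of degree not divisible by `p` and prime to the degrees
of `f` and `h`; the exponents are not divisible by `p`. -/
structure IsAdmissible (p : ℕ) (f h D : κ[X]) (a b c : ℕ) : Prop where
  irreducible : Irreducible (f.comp h)
  two_le : 2 ≤ f.natDegree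
  degree : ¬ p ∣ f.natDegree * h.natDegree
  twist : (∃ u : κ, u ≠ 0 ∧ D = C u) ∨ (Irreducible D ∧ ¬ p ∣ D.natDegree ∧
    Nat.Coprime D.natDegree (f.natDegree * h.natDegree))
  exponentD : ¬ p ∣ a
  exponentH : ¬ p ∣ b
  exponentF : ¬ p ∣ c

/-- `M` is the sum of the `H²_c(U, L_χ)` over the nontrivial characters `χ` of order dividing
`p ^ s`: the part of the cohomology with compact supports of the covering `v ^ (p ^ s) = value` of `U`
without invariants of the covering group, with the Frobenius `ΦM` and the automorphism `g` of order
`p ^ s`. -/
structure IsOpenPart [Fintype κ] (p s : ℕ) (z : κ) (f h D : κ[X]) (a b c : ℕ) {E M : Type}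
    [Field E] [AddCommGroup M] [Module E M] (ΦM g : Module.End E M) : Prop where
  commute : Commute ΦM g
  order : g ^ p ^ s = 1
  noInvariants : ∀ v, g v = v → v = 0
  /-- the covering has `p ^ s fixCount` fixed points of the composition of the Frobenius over `L` and
  `g ^ i`, and `openCount` is the contribution of the trivial character -/
  lefschetz : ∀ (L : Type) [Field L] [Fintype L] [Algebra κ L] (i : ℕ),
    LinearMap.trace E M (ΦM ^ Module.finrank κ L * g ^ i) =
      (p : E) ^ s * (fixCount L f h D a b c (p ^ s) z i : E) - (openCount L f h D a b c : E)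
  /-- the dimension of `H²_c(U, L_χ)` is the Euler characteristic of `U` -/
  dimension : ∀ ω : E, ω ≠ 1 → ω ^ p ^ s = 1 → Module.finrank E (g.eigenspace ω) +
    f.natDegree = f.natDegree * h.natDegree + f.natDegree * D.natDegree

/-- `V`, with the Frobenius `Φ`, is generated by the image of `M` and by the part `N` where a power of
`Φ / q` is the identity: the classes of the boundary curves, and the classes invariant under the
covering group (those of a rational surface). -/
structure IsSecondCohomology [Fintype κ] {E M V : Type} [Field E] [AddCommGroup M] [Module E M]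
    [AddCommGroup V] [Module E V] (ΦM : Module.End E M) (Φ : Module.End E V) (π : M →ₗ[E] V)
    (N : Submodule E V) : Prop where
  equivariant : ∀ x, π (ΦM x) = Φ (π x)
  generates : LinearMap.range π ⊔ N = ⊤
  divisors : ∃ r : ℕ, 0 < r ∧ ∀ v ∈ N, (Φ ^ r) v = ((Fintype.card κ : E) ^ r) • v

theorem value_eq (L : Type) [Field L] [Algebra κ L] (f h D : κ[X]) (a b c : ℕ)
    (y : Fin 2 → L) : Pool.Agent.TH943.SP.GD L (fun _ : Fin 1 => h) f D (fun _ => b) c a y =
      value L f h D a b c y := by
  unfold Pool.Agent.TH943.SP.GD Pool.Agent.TH943.IP.GG value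
  rw [Fin.prod_univ_one]
  have e1 : (Fin.last 1 : Fin 2) = 1 := rfl
  have e2 : (0 : Fin 1).succ = 1 := rfl
  have e3 : (0 : Fin 1).castSucc = 0 := rfl
  rw [e1, e2, e3]
  ring

end defs

/-- **Semisimplicity of Frobenius on the cohomology of smooth projective surfaces.**

Let `p` be a prime and `κ` a finite field with `q` elements which contains a primitive root of unity
`z` of order `p ^ s ≥ 3`. Let `f` and `h` be polynomials such that `f(h(t))` is irreducible of degree
not divisible by `p`, `n = deg f ≥ 2`, `m = deg h`, and `D` a nonzero constant or ANY irreducible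
polynomial of degree `d` prime to `n m` and not divisible by `p`; `a`, `b`, `c` positive integers
prime to `p`. Let `S` be a smooth projective surface birational to
`v ^ (p ^ s) = D(t) ^ a (x - h(t)) ^ b f(x) ^ c` over `κ`.

Let `U` be the open set `D(t) (x - h(t)) f(x) ≠ 0` of the plane and `U'` its covering. After blowing
up and down we may suppose that `U'` is open in `S` and that the covering group acts on `S`. For the
nontrivial characters `χ` the groups `H^i_c(U, L_χ)` are zero for `i ≠ 2`: for `i < 2`, as `U` is
affine and smooth; for `i > 2` one integrates first over `x` if `D` is not constant (over `t` if `D`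
is constant); there are no coinvariants at all on the fibres, and the local monodromy of the direct
image at the zeros of `D` (of `f`) is a scalar different from one. So `IsOpenPart` holds for the sum
`M` of the `H²_c(U, L_χ)`, by the Grothendieck-Lefschetz formula, and the dimension of `M` is
`(p ^ s - 1) n (m + d - 1)`. The complement of the affine surface `U'` supports an ample divisor; by the
Hodge index theorem `H²(S)` is the orthogonal sum of the span of the classes of the boundary curves
and of the image of `H²_c(U')`; the part of `H²(S)` invariant under the covering group is that of a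
rational surface. So `IsSecondCohomology` holds for `V = H²(S)`.

Theorem: for every prime `ℓ` prime to `q` the Frobenius is semisimple on `H²(S, Q_ℓ)`, hence on all
cohomology of `S` (for `H¹` and `H³` this is known). -/
theorem result (p s : ℕ) (hp : p.Prime) (hs : 1 ≤ s) (_hps : 3 ≤ p ^ s) (κ : Type) [Field κ]
    [Fintype κ] (z : κ) (hz : IsPrimitiveRoot z (p ^ s)) (f h D : κ[X]) (a b c : ℕ)
    (hadm : IsAdmissible p f h D a b c)
    (E M V : Type) [Field E] [CharZero E] [IsAlgClosed E] [AddCommGroup M] [Module E M]
    [FiniteDimensional E M] [AddCommGroup V] [Module E V] [FiniteDimensional E V]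
    (ΦM g : Module.End E M) (hM : IsOpenPart p s z f h D a b c ΦM g)
    (Φ : Module.End E V) (π : M →ₗ[E] V) (N : Submodule E V)
    (hV : IsSecondCohomology (κ := κ) ΦM Φ π N) :
    Φ.IsSemisimple := by
  have hcmp : Pool.Agent.TH943.IP.cmp 1 (fun _ : Fin 1 => h) f = f.comp h := rfl
  have hcmp0 : Pool.Agent.TH943.IP.cmp 0 (fun i : Fin 0 => h) f = f := rfl
  have hf0 : 0 < f.natDegree := by
    have := hadm.two_le
    omega
  have hm : 0 < h.natDegree := by
    rcases Nat.eq_zero_or_pos h.natDegree with h0 | h0
    · exact absurd (by rw [h0, mul_zero]; exact dvd_zero p) hadm.degree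
    · exact h0
  have hss : ΦM.IsSemisimple := by
    refine Pool.Agent.TH943.SP.open_main hp hs κ hz (r := 0) (fun _ : Fin 1 => h) f D
      (b := fun _ => b) (c := c) (a := a) ?_ ?_ ?_ ?_ ?_ ?_ ?_ ΦM g hM.commute hM.order
      hM.noInvariants ?_ ?_
    · intro _ h0
      exact hadm.exponentH (by rw [h0]; exact dvd_zero p)
    · intro h0
      exact hadm.exponentF (by rw [h0]; exact dvd_zero p)
    · intro h0
      exact hadm.exponentD (by rw [h0]; exact dvd_zero p)
    · rw [hcmp]
      exact hadm.irreducible
    · rw [hcmp, natDegree_comp]
      exact hadm.degree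
    · rw [hcmp, natDegree_comp]
      exact hadm.two_le.trans (Nat.le_mul_of_pos_right _ hm)
    · rw [hcmp, natDegree_comp]
      exact hadm.twist
    · intro L _ _ _ i
      simp only [value_eq]
      have h1 := hM.lefschetz L i
      unfold fixCount openCount at h1
      rw [← h1]
      norm_num
    · intro ω hω1 hω
      have h1 := hM.dimension ω hω1 hω
      rw [hcmp, natDegree_comp]
      exact h1
  obtain ⟨r, hr, hN⟩ := hV.divisors
  exact Pool.Agent.TH943.SP.semisimple_image ΦM Φ π hV.equivariant hss N hV.generates hr
    (pow_ne_zero _ (by exact_mod_cast Fintype.card_ne_zero)) hN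

end Pool.Agent.Results.MP_93fb11_ag.CyclicPencilSurfaces
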